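import Mathlib
import Pool.Agent.Helper679.NG7

set_option autoImplicit false

/-!
The Nordhaus-Gaddum maximum `g(n,k)` of the `k`-minimal domination numbers:
* `g(n,k) = n` if `n ≤ k²` or `n < 2^(k-1)`, and, for `k ≥ 19`, whenever `n ≤ 4^(k-1)/2`;
* `g(n,k) > n` for all `n ≥ (3 k² 2^k + 1)²`;
* `⌊n / (3 k² 2^k)⌋² ≤ g(n,k) ≤ n² / 4^(k-1) + 2 n`;
* `⌊n/4⌋² ≤ g(n,2) ≤ n²/16 + 6 n^(7/4)`, so that `g(n,2) ~ n²/16`.
-/

namespace Pool.Agent.Results.MP_213d49_co.Asymptotics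

open Pool.Agent.Helper679.NG

/-- Sanity check: `Γ_k(G)` is attained and is an upper bound. -/
lemma gam_spec {V : Type} [Fintype V] [DecidableEq V] (k : ℕ) (G : SimpleGraph V) :
    (∃ X, KMinimal G k X ∧ X.card = Gam k G) ∧ ∀ X, KMinimal G k X → X.card ≤ Gam k G :=
  ⟨exists_gam k G, fun _ h => le_gam h⟩

/-- Sanity check: `g(n,k)` is attained and is an upper bound. -/
lemma g_spec (n k : ℕ) :
    (∃ G : SimpleGraph (Fin n), g n k = Gam k G * Gam k Gᶜ) ∧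
      ∀ G : SimpleGraph (Fin n), Gam k G * Gam k Gᶜ ≤ g n k :=
  ⟨Nat.sSup_mem (s := {c | ∃ G : SimpleGraph (Fin n), c = Gam k G * Gam k Gᶜ})
    ⟨_, ⊥, rfl⟩ (g_bdd n k), fun G => le_csSup (g_bdd n k) ⟨G, rfl⟩⟩

lemma lower_k (n k : ℕ) (hk : 2 ≤ k) (hn : 1 ≤ n) : (n / (3 * k ^ 2 * 2 ^ k)) ^ 2 ≤ g n k := by
  obtain ⟨t, rfl⟩ : ∃ t, k = t + 1 := ⟨k - 1, by omega⟩
  obtain ⟨M, hM⟩ := exists_good_k t (by omega)
  have h := lower_of_good (n := n) (t := t) (by omega) (by positivity) M hM hn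
  have e : 2 * (3 * (t + 1) ^ 2 * 2 ^ t) = 3 * (t + 1) ^ 2 * 2 ^ (t + 1) := by ring
  rw [e] at h
  exact h

lemma g_le_nat {n k c : ℕ} (h : ∀ (G : SimpleGraph (Fin n)) (X Y : Finset (Fin n)),
    KMinimal G k X → KMinimal Gᶜ k Y → X.card * Y.card ≤ c) : g n k ≤ c := by
  obtain ⟨G, X, Y, hX, hY, hg⟩ := exists_g n k
  rw [hg]
  exact h G X Y hX hY

lemma g_le_real {n k : ℕ} {c : ℝ} (h : ∀ (G : SimpleGraph (Fin n)) (X Y : Finset (Fin n)),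
    KMinimal G k X → KMinimal Gᶜ k Y → ((X.card * Y.card : ℕ) : ℝ) ≤ c) : (g n k : ℝ) ≤ c := by
  obtain ⟨G, X, Y, hX, hY, hg⟩ := exists_g n k
  rw [hg]
  exact h G X Y hX hY

lemma two_bounds (n : ℕ) (hn : 1 ≤ n) : (n / 4) ^ 2 ≤ g n 2 ∧
    (g n 2 : ℝ) ≤ (n : ℝ) ^ 2 / 16 + 6 * (n : ℝ) ^ (7 / 4 : ℝ) := by
  constructor
  · exact lower_of_good (n := n) (t := 1) le_rfl (by norm_num) _ good_two hn
  · apply g_le_real
    intro G X Y hX hY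
    have := upper_two hX hY
    simpa using this

lemma tendsto_two : Filter.Tendsto (fun n : ℕ => (g n 2 : ℝ) / (n : ℝ) ^ 2) Filter.atTop
    (nhds (1 / 16)) := by
  have h1 : Filter.Tendsto (fun n : ℕ => (n : ℝ)) Filter.atTop Filter.atTop :=
    tendsto_natCast_atTop_atTop
  have hlow : Filter.Tendsto (fun n : ℕ => (1 : ℝ) / 16 - (1 : ℝ) * (n : ℝ)⁻¹) Filter.atTop
      (nhds (1 / 16)) := by
    have := (tendsto_inv_atTop_zero.comp h1).const_mul (1 : ℝ)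
    have h2 := (tendsto_const_nhds (x := (1 : ℝ) / 16)).sub this
    simpa using h2
  have hup : Filter.Tendsto (fun n : ℕ => (1 : ℝ) / 16 + 6 * (n : ℝ) ^ (-(1 / 4) : ℝ))
      Filter.atTop (nhds (1 / 16)) := by
    have := ((tendsto_rpow_neg_atTop (y := 1 / 4) (by norm_num)).comp h1).const_mul (6 : ℝ)
    have h2 := (tendsto_const_nhds (x := (1 : ℝ) / 16)).add this
    simpa using h2
  refine tendsto_of_tendsto_of_tendsto_of_le_of_le' hlow hup ?_ ?_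
  · filter_upwards [Filter.eventually_ge_atTop 4] with n hn
    have hn0 : (4 : ℝ) ≤ n := by exact_mod_cast hn
    obtain ⟨h2, _⟩ := two_bounds n (by omega)
    have h3 : (((n / 4 : ℕ) : ℝ)) ^ 2 ≤ g n 2 := by exact_mod_cast h2
    have h4 : n ≤ 4 * (n / 4) + 3 := by omega
    have h5 : (n : ℝ) ≤ 4 * ((n / 4 : ℕ) : ℝ) + 3 := by exact_mod_cast h4
    have h6 : (0 : ℝ) ≤ (n : ℝ) - 3 := by linarith
    have h7 : ((n : ℝ) - 3) ^ 2 / 16 ≤ ((n / 4 : ℕ) : ℝ) ^ 2 := by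
      have : ((n : ℝ) - 3) ≤ 4 * ((n / 4 : ℕ) : ℝ) := by linarith
      nlinarith
    rw [le_div_iff₀ (by positivity)]
    have h8 : ((1 : ℝ) / 16 - 1 * (n : ℝ)⁻¹) * (n : ℝ) ^ 2 = (n : ℝ) ^ 2 / 16 - n := by
      field_simp
    rw [h8]
    nlinarith
  · filter_upwards [Filter.eventually_ge_atTop 1] with n hn
    have hn0 : (0 : ℝ) < n := by exact_mod_cast hn
    obtain ⟨_, h2⟩ := two_bounds n hn
    rw [div_le_iff₀ (by positivity)]
    have h8 : ((1 : ℝ) / 16 + 6 * (n : ℝ) ^ (-(1 / 4) : ℝ)) * (n : ℝ) ^ 2 =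
        (n : ℝ) ^ 2 / 16 + 6 * (n : ℝ) ^ (7 / 4 : ℝ) := by
      have : (n : ℝ) ^ (7 / 4 : ℝ) = (n : ℝ) ^ (-(1 / 4) : ℝ) * (n : ℝ) ^ 2 := by
        rw [← Real.rpow_natCast (n : ℝ) 2, ← Real.rpow_add hn0]
        norm_num
      rw [this]
      ring
    rw [h8]
    exact h2

/-- **Main theorem.** -/
theorem result :
    (∀ n k : ℕ, 2 ≤ k → 1 ≤ n → (n ≤ k ^ 2 ∨ n < 2 ^ (k - 1)) → g n k = n) ∧
    (∀ n k : ℕ, 19 ≤ k → 1 ≤ n → 2 * n ≤ 4 ^ (k - 1) → g n k = n) ∧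
    (∀ n k : ℕ, 2 ≤ k → (3 * k ^ 2 * 2 ^ k + 1) ^ 2 ≤ n → n < g n k) ∧
    (∀ n k : ℕ, 2 ≤ k → 1 ≤ n → n ≤ g n k ∧ (n / (3 * k ^ 2 * 2 ^ k)) ^ 2 ≤ g n k ∧
      (g n k : ℝ) ≤ (n : ℝ) ^ 2 / 4 ^ (k - 1) + 2 * n) ∧
    (∀ n : ℕ, 1 ≤ n → (n / 4) ^ 2 ≤ g n 2 ∧
      (g n 2 : ℝ) ≤ (n : ℝ) ^ 2 / 16 + 6 * (n : ℝ) ^ (7 / 4 : ℝ)) ∧
    Filter.Tendsto (fun n : ℕ => (g n 2 : ℝ) / (n : ℝ) ^ 2) Filter.atTop (nhds (1 / 16)) := by
  refine ⟨?_, ?_, ?_, ?_, two_bounds, tendsto_two⟩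
  · intro n k hk hn hs
    refine le_antisymm (g_le_nat fun G X Y hX hY => ?_) (n_le_g n k hn)
    obtain ⟨t, rfl⟩ : ∃ t, k = t + 1 := ⟨k - 1, by omega⟩
    rcases hs with hs | hs
    · have := small_sq hk hX hY (by rw [Fintype.card_fin]; exact hs)
      rwa [Fintype.card_fin] at this
    · have := small_n (by omega) hX hY (by
        rw [Fintype.card_fin]; rwa [Nat.add_sub_cancel] at hs)
      rwa [Fintype.card_fin] at this
  · intro n k hk hn hs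
    refine le_antisymm (g_le_nat fun G X Y hX hY => ?_) (n_le_g n k hn)
    obtain ⟨t, rfl⟩ : ∃ t, k = t + 1 := ⟨k - 1, by omega⟩
    have := small_n' (by omega) hX hY (by
      rw [Fintype.card_fin]; rwa [Nat.add_sub_cancel] at hs)
    rwa [Fintype.card_fin] at this
  · intro n k hk hn
    have hD : 1 ≤ 3 * k ^ 2 * 2 ^ k := by
      have : 0 < 3 * k ^ 2 * 2 ^ k := by positivity
      omega
    refine lt_of_lt_of_le ?_ (lower_k n k hk (by nlinarith))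
    set D := 3 * k ^ 2 * 2 ^ k with hDdef
    set m := n / D with hm
    have h1 : n < D * (m + 1) := by
      have := Nat.lt_mul_div_succ n (by omega : 0 < D)
      exact this
    by_contra hcon
    push Not at hcon
    -- m² ≤ n < D (m+1), so m ≤ D + 1
    have h2 : m ≤ D := by
      by_contra hc
      push Not at hc
      nlinarith
    have h3 : D * (m + 1) ≤ D * (D + 1) := Nat.mul_le_mul_left _ (by omega)
    nlinarith
  · intro n k hk hn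
    refine ⟨n_le_g n k hn, lower_k n k hk hn, ?_⟩
    apply g_le_real
    intro G X Y hX hY
    obtain ⟨t, rfl⟩ : ∃ t, k = t + 1 := ⟨k - 1, by omega⟩
    have := upper (by omega) hX hY
    rw [Nat.add_sub_cancel]
    simpa using this

end Pool.Agent.Results.MP_213d49_co.Asymptotics
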